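import Mathlib
import Pool.Agent.U914.WP.KQ

/-!
# A prime (or an element of an arbitrary set) plus a value of almost every polynomial

Let `k ≥ 2`, let `a > 0` be fixed and let `f(x) = a x ^ k + θ_{k-1} x ^ (k-1) + … + θ_1 x` with real coefficients `θ_j`.
For `k = 2` and `a = 1` this is `f(x) = x ^ 2 + θ x`, and `x (x + 1)` is the value at `θ = 1`. We prove that for
almost all `θ` the number of representations `n = b + ⌊f(x)⌋` with `b` in an arbitrary set `S` of nonnegative integers up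
to `N / 2` is equal to its expected value `∑_{b ∈ S} (1/k) a ^ (-1/k) (n - b) ^ (1/k - 1)` in mean square over
`n ∈ [N, 2N]` with a power saving, uniformly in `S`. In particular all but at most `N ^ (1 - τ)` of the integers
`n ∈ [N, 2N]` are a prime plus a value `⌊f(x)⌋` with a positive integer `x`, and the same holds with the primes replaced
by any set `S` with at least `N ^ (1 - τ)` elements.
-/

set_option autoImplicit false

namespace Pool.Agent.Results.MP_3f6540_nt.AlmostAllQuadratics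

open MeasureTheory Filter

/-- **An element of an arbitrary set, or a prime, plus a value of almost every polynomial.** Let `k ≥ 2` and `a > 0`.
There is `τ > 0` such that for almost all `θ ∈ ℝ ^ (k-1)` (Lebesgue measure) the polynomial
`f(x) = a x ^ k + θ_{k-1} x ^ (k-1) + … + θ_1 x` has these three properties for all large `N`.

* For every finite set `S ⊆ [0, N/2]` the number of positive integers `x` with `n - ⌊f(x)⌋ ∈ S` differs from
  `∑_{b ∈ S} (1/k) a ^ (-1/k) (n - b) ^ (1/k - 1)`, in mean square over `n ∈ [N, 2N]`, by a power of `N` less than its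
  size: the sum of the squares of the differences is at most `|S| N ^ (2/k - 4τ)`.
* For every finite set `S ⊆ [0, N/2]` with at least `N ^ (1 - τ)` elements all but at most `N ^ (1 - τ)` of the integers
  `n ∈ [N, 2N]` are of the form `n = b + ⌊f(x)⌋` with `b ∈ S` and a positive integer `x`.
* All but at most `N ^ (1 - τ)` of the integers `n ∈ [N, 2N]` are of the form `n = p + ⌊f(x)⌋` with a prime `p` and a
  positive integer `x`. -/
theorem result (k : ℕ) (hk : 2 ≤ k) (a : ℝ) (ha : 0 < a) :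
    ∃ τ : ℝ, 0 < τ ∧ ∀ᵐ θ : Fin (k - 1) → ℝ, ∀ᶠ N : ℕ in atTop,
      (∀ S : Finset ℕ, (∀ b ∈ S, 2 * b ≤ N) →
        ∑ n ∈ Finset.Icc N (2 * N),
          (({x : ℕ | 0 < x ∧ ∃ b ∈ S,
            (b : ℤ) + ⌊a * (x : ℝ) ^ k + ∑ j : Fin (k - 1), θ j * (x : ℝ) ^ ((j : ℕ) + 1)⌋ = (n : ℤ)}.ncard : ℝ) -
            ∑ b ∈ S, a ^ (-(1 / (k : ℝ))) / k * ((n : ℝ) - b) ^ (1 / (k : ℝ) - 1)) ^ 2 ≤
          S.card * (N : ℝ) ^ (2 / (k : ℝ) - 4 * τ)) ∧
      (∀ S : Finset ℕ, (∀ b ∈ S, 2 * b ≤ N) → (N : ℝ) ^ (1 - τ) ≤ S.card →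
        (({n : ℕ | N ≤ n ∧ n ≤ 2 * N ∧ ¬ ∃ b ∈ S, ∃ x : ℕ, 0 < x ∧
          (b : ℤ) + ⌊a * (x : ℝ) ^ k + ∑ j : Fin (k - 1), θ j * (x : ℝ) ^ ((j : ℕ) + 1)⌋ = (n : ℤ)}.ncard : ℕ) : ℝ) ≤
          (N : ℝ) ^ (1 - τ)) ∧
      (({n : ℕ | N ≤ n ∧ n ≤ 2 * N ∧ ¬ ∃ p : ℕ, p.Prime ∧ ∃ x : ℕ, 0 < x ∧
        (p : ℤ) + ⌊a * (x : ℝ) ^ k + ∑ j : Fin (k - 1), θ j * (x : ℝ) ^ ((j : ℕ) + 1)⌋ = (n : ℤ)}.ncard : ℕ) : ℝ) ≤
          (N : ℝ) ^ (1 - τ) := by
  obtain ⟨d, rfl⟩ : ∃ d, k = d + 1 := ⟨k - 1, by omega⟩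
  obtain ⟨δ, hδ0, hδ1, hdom⟩ := Pool.Agent.U914.WP.dom_ae d (by omega) a ha
  refine ⟨δ / (8 * ((d + 1 : ℕ) : ℝ)), by positivity, ?_⟩
  filter_upwards [hdom] with θ hdom
  have hk0 : (0 : ℝ) < ((d + 1 : ℕ) : ℝ) := by positivity
  filter_upwards [Pool.Agent.U914.WP.add_ms d (by omega) a ha δ hδ0 hδ1 θ hdom,
    Pool.Agent.U914.WP.rep_ae d (by omega) a ha δ hδ0 hδ1 θ hdom,
    Pool.Agent.U914.WP.prime_ae d (by omega) a ha δ hδ0 hδ1 θ hdom, eventually_ge_atTop 1] with N h1 h2 h3 hN1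
  have hN0 : (0 : ℝ) < N := by exact_mod_cast hN1
  refine ⟨?_, ?_, ?_⟩
  · intro S hS
    have h4 := h1 S hS
    have e2 : δ / (2 * ((d + 1 : ℕ) : ℝ)) = 4 * (δ / (8 * ((d + 1 : ℕ) : ℝ))) := by
      field_simp
      ring
    rw [e2] at h4
    refine le_trans (le_of_eq ?_) h4
    apply Finset.sum_congr rfl
    intro n hn
    congr 1
    congr 1
    apply Finset.sum_congr rfl
    intro b hb
    have h5 : (N : ℝ) ≤ n := by exact_mod_cast (Finset.mem_Icc.1 hn).1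
    have h6 : (2 : ℝ) * b ≤ N := by exact_mod_cast hS b hb
    have h7 : (0 : ℝ) < (n : ℝ) - b := by linarith [hN0, h5, h6, (Nat.cast_nonneg b : (0 : ℝ) ≤ b)]
    unfold Pool.Agent.U914.WP.rh Pool.Agent.U914.WP.ps1
    rw [Real.div_rpow h7.le ha.le, Real.rpow_sub h7, Real.rpow_one, Real.rpow_neg ha.le, one_div]
    field_simp
  · intro S hS hc
    refine le_trans ?_ (h2 S hS hc)
    rw [Nat.cast_le, ← Set.ncard_coe_finset]
    apply Set.ncard_le_ncard _ (Finset.finite_toSet _)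
    rintro n ⟨h4, h5, h6⟩
    rw [Finset.mem_coe, Finset.mem_filter, Finset.mem_Icc]
    refine ⟨⟨h4, h5⟩, ?_⟩
    unfold Pool.Agent.U914.WP.cP
    convert Set.ncard_empty ℕ
    rw [Set.eq_empty_iff_forall_notMem]
    rintro x ⟨h7, b, hb, h8⟩
    exact h6 ⟨b, hb, x, h7, h8⟩
  · refine le_trans (le_of_eq ?_) h3
    congr 2
    ext n
    simp only [Set.mem_ofPred_eq]
    constructor
    · rintro ⟨h4, h5, h6⟩
      exact ⟨h4, h5, fun ⟨p, x, hp, hx, h7⟩ => h6 ⟨p, hp, x, hx, h7⟩⟩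
    · rintro ⟨h4, h5, h6⟩
      exact ⟨h4, h5, fun ⟨p, hp, x, hx, h7⟩ => h6 ⟨p, x, hp, hx, h7⟩⟩

end Pool.Agent.Results.MP_3f6540_nt.AlmostAllQuadratics
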